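import Pool.Agent.N929.EG.PtU
import Pool.Agent.N278.EZ.Quo

/-!
# Systems of local moves: regularity to all orders of conditional means, uniformly in the condition
and in the functional
-/

set_option autoImplicit false
set_option linter.unusedVariables false

namespace Pool.Agent.K6.H37.KL

open Finset Filter Topology
open scoped Classical
open Pool.Agent.N929.EG
open Pool.Agent.N929.EZ (Df)

noncomputable section

variable {α σ : Type}

/-- `F` does not change under the moves -/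
def Iv (Y : TS α σ) (F : α → ℝ) : Prop := ∀ n, ∀ w ∈ Y.K n, ∀ q ∈ Y.S w, F (Y.ins w q) = F w

/-- the normalised sums -/
def nf (Y : TS α σ) (μ : ℝ) (F : α → ℝ) (n j : ℕ) : ℝ :=
  (∑ w ∈ Y.K (n + Y.s * j), F w) / μ ^ (Y.s * j)

theorem rep_inv (Y : TS α σ) {F : α → ℝ} (hF : ∀ n, ∀ w ∈ Y.K n, 0 ≤ F w) (hi : Iv Y F) :
    ∀ L : Finset σ, Fam Y L → ∀ st fl, Fill Y L st fl →
      ∃ M : α → ℝ, (∀ w, 0 ≤ M w) ∧
        (∀ w, Em Y L w → Rp (Sl Y L w) (fun U => F (fl w U)) (M w)) ∧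
        ∀ n, 2 ≤ n → ∑ w ∈ Y.K n, M (st w) ≤ 1 * ∑ w ∈ Y.K n, F w := by
  intro L hL st fl hfl
  refine ⟨fun w => |F w|, fun w => abs_nonneg _, fun w hw => ?_, fun n hn => ?_⟩
  · obtain ⟨v, hv, hv'⟩ := Rp.const (E := Sl Y L w) (F w)
    exact ⟨v, hv, fun U hU => (fl_inv hfl hi hw U hU).trans (hv' U hU)⟩
  · have h5 : ∑ w ∈ Y.K n, |F (st w)| = ∑ w ∈ Y.K n, F w := by
      refine sum_congr rfl (fun w hw => ?_)
      rw [sum_st hfl hi hw, abs_of_nonneg (hF n w hw)]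
    rw [h5, one_mul]

theorem Df_nf (Y : TS α σ) (μ : ℝ) (F : α → ℝ) (n t : ℕ) : Df t (nf Y μ F n) 0 =
    ∑ i ∈ range (t + 1), (-1 : ℝ) ^ i * (t.choose i : ℝ) *
      ((∑ w ∈ Y.K (n + Y.s * i), F w) / μ ^ (Y.s * i)) := by
  unfold Df nf
  simp only [zero_add]

/-- the differences of the sums of all functionals bounded by `g` -/
theorem core (Y : TS α σ) {μ : ℝ} {φ : ℕ → ℝ} (G : Gr Y μ φ) (r : ℕ) :
    ∃ A' B : ℝ, 2 ≤ A' ∧ 0 < B ∧ ∀ g : α → ℝ, (∀ n, ∀ w ∈ Y.K n, 0 ≤ g w ∧ g w ≤ 1) → Iv Y g →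
      ∀ (n : ℕ) (ε L : ℝ), 2 ≤ n → 0 < ε → ε ≤ 1 → 0 ≤ L →
        A' * (φ n + L) ≤ ε ^ 2 * n → μ ^ n ≤ Real.exp L * ∑ w ∈ Y.K n, g w →
        ∀ F : α → ℝ, (∀ n, ∀ w ∈ Y.K n, |F w| ≤ g w) → Iv Y F → ∀ t, t ≤ r →
          |Df t (nf Y μ F n) 0| ≤ B * (∑ w ∈ Y.K n, g w) * ε ^ t := by
  have hg := hd_genU Y G 1 0 zero_le_one
  choose A C hA hC h using hg
  have hμ1 := G.one
  obtain ⟨A0, hA0⟩ : ∃ A0 : ℝ, A0 = 1 + ∑ t ∈ range (r + 1), A t := ⟨_, rfl⟩
  obtain ⟨C0, hC0⟩ : ∃ C0 : ℝ, C0 = 1 + ∑ t ∈ range (r + 1), C t := ⟨_, rfl⟩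
  have hA0p : 1 ≤ A0 := by
    rw [hA0]; have := sum_nonneg (s := range (r + 1)) fun t _ => (hA t).le; linarith
  have hC0p : 1 ≤ C0 := by
    rw [hC0]; have := sum_nonneg (s := range (r + 1)) fun t _ => (hC t).le; linarith
  have hAle : ∀ t, t ≤ r → A t ≤ A0 := fun t ht => by
    have := single_le_sum (f := A) (fun t _ => (hA t).le) (mem_range.2 (Nat.lt_succ_of_le ht))
    rw [hA0]; linarith
  have hCle : ∀ t, t ≤ r → C t ≤ C0 := fun t ht => by
    have := single_le_sum (f := C) (fun t _ => (hC t).le) (mem_range.2 (Nat.lt_succ_of_le ht))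
    rw [hC0]; linarith
  have hr0 : (0 : ℝ) ≤ r := Nat.cast_nonneg r
  refine ⟨A0 * (r + 2), 6 * C0, by nlinarith, by positivity, ?_⟩
  intro g hgB hgi n ε L hn hε0 hε1 hL hle hlow F hF hFi t ht
  have hn0 : (0 : ℝ) < n := by exact_mod_cast (by omega : 0 < n)
  have hlog := G.phi.log n hn
  have hl2 : 0.69 ≤ Real.log (n : ℝ) := by
    have hn' : (2 : ℝ) ≤ n := by exact_mod_cast hn
    have := Real.log_two_gt_d9
    have h3 : Real.log 2 ≤ Real.log n := Real.log_le_log (by norm_num) hn'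
    linarith
  have hφ0 : 0 < φ n := by linarith
  obtain ⟨T, hT⟩ : ∃ T : ℝ, T = ∑ w ∈ Y.K n, g w := ⟨_, rfl⟩
  rw [← hT] at hlow ⊢
  have hT0 : 0 ≤ T := by rw [hT]; exact sum_nonneg fun w hw => (hgB n w hw).1
  -- the error term
  have herr : Real.exp (-(ε ^ 2 * n / A0)) * μ ^ n ≤ ε ^ r * T := by
    have h1 : (r + 2) * (φ n + L) ≤ ε ^ 2 * n / A0 := by
      rw [le_div_iff₀ (by linarith)]
      calc (r + 2) * (φ n + L) * A0 = A0 * (r + 2) * (φ n + L) := by ring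
        _ ≤ _ := hle
    have h2 : Real.exp (-(ε ^ 2 * n / A0)) * Real.exp L ≤ Real.exp (-(r * Real.log n)) := by
      rw [← Real.exp_add]
      apply Real.exp_le_exp.mpr
      have h3 : (r : ℝ) * Real.log n ≤ r * φ n := mul_le_mul_of_nonneg_left hlog hr0
      have h4 : 0 ≤ ((r : ℝ) + 1) * L := by positivity
      nlinarith
    have h5 : Real.exp (-(r * Real.log n)) ≤ ε ^ r := by
      have h6 : 1 ≤ ε ^ 2 * n := by
        have : 2 * 0.69 ≤ A0 * (r + 2) * (φ n + L) := by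
          have h8 : (2 : ℝ) ≤ A0 * (r + 2) := by nlinarith
          nlinarith
        linarith
      have h7 : (n : ℝ)⁻¹ ≤ ε := by
        have h8 : (n : ℝ)⁻¹ ≤ ε ^ 2 := by
          rw [inv_le_iff_one_le_mul₀ hn0]
          linarith
        have h9 : ε ^ 2 ≤ ε := by nlinarith
        linarith
      have h8 : Real.exp (-(r * Real.log n)) = ((n : ℝ)⁻¹) ^ r := by
        rw [← mul_neg, ← Real.log_inv, ← Real.log_pow, Real.exp_log (by positivity)]
      rw [h8]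
      exact pow_le_pow_left₀ (by positivity) h7 r
    calc Real.exp (-(ε ^ 2 * n / A0)) * μ ^ n
        ≤ Real.exp (-(ε ^ 2 * n / A0)) * (Real.exp L * T) :=
          mul_le_mul_of_nonneg_left hlow (Real.exp_pos _).le
      _ = Real.exp (-(ε ^ 2 * n / A0)) * Real.exp L * T := by ring
      _ ≤ ε ^ r * T := mul_le_mul_of_nonneg_right (h2.trans h5) hT0
  -- nonnegative functionals
  have hpos : ∀ H : α → ℝ, (∀ n, ∀ w ∈ Y.K n, 0 ≤ H w ∧ H w ≤ g w) → Iv Y H →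
      |Df t (nf Y μ H n) 0| ≤ 2 * C0 * T * ε ^ t := by
    intro H hH hHi
    have h1 : A t * φ n ≤ ε ^ 2 * n := by
      have h2 : A0 ≤ A0 * (r + 2) := by nlinarith
      calc A t * φ n ≤ A0 * (r + 2) * φ n :=
            mul_le_mul_of_nonneg_right ((hAle t ht).trans h2) hφ0.le
        _ ≤ A0 * (r + 2) * (φ n + L) := by
            have : 0 ≤ A0 * (r + 2) := by positivity
            nlinarith
        _ ≤ _ := hle
    have h2 := h t H (fun n w hw => by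
        obtain ⟨a1, a2⟩ := hH n w hw
        obtain ⟨a3, a4⟩ := hgB n w hw
        exact ⟨a1, by rw [pow_zero, mul_one]; linarith⟩)
      (rep_inv Y (fun n w hw => (hH n w hw).1) hHi) n ε hn hε0 hε1 h1
    rw [Df_nf]
    have h3 : Real.exp (-(ε ^ 2 * n / A t)) ≤ Real.exp (-(ε ^ 2 * n / A0)) := by
      apply Real.exp_le_exp.2
      apply neg_le_neg
      exact div_le_div_of_nonneg_left (by positivity) (hA t) (hAle t ht)
    have h5 : ε ^ r ≤ ε ^ t := pow_le_pow_of_le_one hε0.le hε1 ht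
    have h6 : ∑ w ∈ Y.K n, H w ≤ T := by
      rw [hT]; exact sum_le_sum fun w hw => (hH n w hw).2
    have h60 : 0 ≤ ∑ w ∈ Y.K n, H w := sum_nonneg fun w hw => (hH n w hw).1
    have hμn : 0 ≤ μ ^ n := by positivity
    rw [pow_zero, mul_one, one_mul] at h2
    calc _ ≤ C t * (ε ^ t * (∑ w ∈ Y.K n, H w) + Real.exp (-(ε ^ 2 * n / A t)) * μ ^ n) := h2
      _ ≤ C0 * (ε ^ t * T + Real.exp (-(ε ^ 2 * n / A0)) * μ ^ n) := by
          have h7 := hCle t ht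
          have h8 := hC t
          gcongr
      _ ≤ C0 * (ε ^ t * T + ε ^ t * T) := by
          have := mul_le_mul_of_nonneg_right h5 hT0
          have h9 := herr.trans this
          exact mul_le_mul_of_nonneg_left (by linarith) (by linarith)
      _ = _ := by ring
  have e1 := hpos g (fun n w hw => ⟨(hgB n w hw).1, le_rfl⟩) hgi
  have e2 := hpos (fun w => (g w + F w) / 2) (fun n w hw => by
      have := abs_le.1 (hF n w hw)
      constructor
      · linarith [this.1]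
      · linarith [this.2])
    (fun n w hw q hq => by
      simp only
      rw [hgi n w hw q hq, hFi n w hw q hq])
  have e3 : Df t (nf Y μ F n) 0 =
      2 * Df t (nf Y μ (fun w => (g w + F w) / 2) n) 0 - Df t (nf Y μ g n) 0 := by
    rw [Df_nf, Df_nf, Df_nf, mul_sum, ← sum_sub_distrib]
    refine sum_congr rfl fun i _ => ?_
    have e4 : ∑ w ∈ Y.K (n + Y.s * i), (g w + F w) / 2 =
        ((∑ w ∈ Y.K (n + Y.s * i), g w) + ∑ w ∈ Y.K (n + Y.s * i), F w) / 2 := by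
      rw [← sum_div, sum_add_distrib]
    rw [e4]
    ring
  rw [e3]
  have e5 : 0 ≤ C0 * T * ε ^ t := by positivity
  calc |2 * Df t (nf Y μ (fun w => (g w + F w) / 2) n) 0 - Df t (nf Y μ g n) 0|
      ≤ |2 * Df t (nf Y μ (fun w => (g w + F w) / 2) n) 0| + |Df t (nf Y μ g n) 0| :=
        abs_sub _ _
    _ ≤ 2 * (2 * C0 * T * ε ^ t) + 2 * C0 * T * ε ^ t := by
        rw [abs_mul, abs_of_pos (by norm_num : (0 : ℝ) < 2)]
        exact add_le_add (mul_le_mul_of_nonneg_left e2 (by norm_num)) e1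
    _ = _ := by ring

/-- **Conditional means**: `g` is the condition, the constants are uniform in `g` and `F` -/
theorem cond_mean (Y : TS α σ) {μ : ℝ} {φ : ℕ → ℝ} (G : Gr Y μ φ) (r : ℕ) :
    ∃ A' C' : ℝ, 1 ≤ A' ∧ 0 < C' ∧ ∀ g : α → ℝ, (∀ n, ∀ w ∈ Y.K n, 0 ≤ g w ∧ g w ≤ 1) →
      Iv Y g → ∀ (n : ℕ) (ε L : ℝ), 2 ≤ n → 0 < ε → ε ≤ 1 / A' → 0 ≤ L →
        A' * (φ n + L) ≤ ε ^ 2 * n → μ ^ n ≤ Real.exp L * ∑ w ∈ Y.K n, g w →
        (∀ i, i ≤ r → 0 < ∑ w ∈ Y.K (n + Y.s * i), g w) ∧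
        (1 ≤ r → |∑ i ∈ range (r + 1), (-1 : ℝ) ^ i * (r.choose i : ℝ) *
          Real.log ((∑ w ∈ Y.K (n + Y.s * i), g w) / μ ^ (n + Y.s * i))| ≤ C' * ε ^ r) ∧
        ∀ F : α → ℝ, (∀ n, ∀ w ∈ Y.K n, |F w| ≤ g w) → Iv Y F →
          |∑ i ∈ range (r + 1), (-1 : ℝ) ^ i * (r.choose i : ℝ) *
            ((∑ w ∈ Y.K (n + Y.s * i), F w) / ∑ w ∈ Y.K (n + Y.s * i), g w)| ≤ C' * ε ^ r := by
  obtain ⟨A, B, hA, hB, hcore⟩ := core Y G r
  have hμ1 := G.one
  obtain ⟨A₂, C₂, hA₂, hC₂, hlog⟩ : ∃ A₂ C₂ : ℝ, 0 < A₂ ∧ 0 < C₂ ∧ (1 ≤ r → ∀ F : α → ℝ,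
      (∀ n, ∀ w ∈ Y.K n, 0 ≤ F w ∧ F w ≤ 1) →
      (∀ n, ∀ w ∈ Y.K n, ∀ q ∈ Y.S w, F (Y.ins w q) = F w) →
      ∀ (n : ℕ) (ε L : ℝ), 2 ≤ n → 0 < ε → ε ≤ 1 / A₂ → 0 ≤ L →
        A₂ * (φ n + L) ≤ ε ^ 2 * n → μ ^ n ≤ Real.exp L * ∑ w ∈ Y.K n, F w →
        (∀ i, i ≤ r → 0 < ∑ w ∈ Y.K (n + Y.s * i), F w) ∧
        |∑ i ∈ range (r + 1), (-1 : ℝ) ^ i * (r.choose i : ℝ) *
          Real.log ((∑ w ∈ Y.K (n + Y.s * i), F w) / μ ^ (n + Y.s * i))| ≤ C₂ * ε ^ r) := by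
    by_cases hr : 1 ≤ r
    · obtain ⟨A₂, C₂, h1, h2, h3⟩ := inv_ptU Y G r hr
      exact ⟨A₂, C₂, h1, h2, fun _ => h3⟩
    · exact ⟨1, 1, one_pos, one_pos, fun h => absurd h hr⟩
  obtain ⟨Bq, hBq⟩ : ∃ Bq : ℝ, Bq = 2 + 2 ^ r * B := ⟨_, rfl⟩
  have hBq0 : 0 < Bq := by rw [hBq]; positivity
  obtain ⟨Cq, hCq, hquo⟩ := Pool.Agent.N278.EZ.quo r Bq hBq0
  have hr0 : (0 : ℝ) ≤ r := Nat.cast_nonneg r
  have hx : 0 ≤ 2 * (r * (2 ^ r * B)) := by positivity
  refine ⟨A + A₂ + 2 * (r * (2 ^ r * B)), C₂ + Cq, by linarith, by positivity, ?_⟩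
  intro g hgB hgi n ε L hn hε0 hεA hL hle hlow
  have hn0 : (0 : ℝ) < n := by exact_mod_cast (by omega : 0 < n)
  have hφ0 := phi_pos G.phi hn
  have hA'0 : 0 < A + A₂ + 2 * (r * (2 ^ r * B)) := by linarith
  have hε1 : ε ≤ 1 := hεA.trans (by rw [div_le_one hA'0]; linarith)
  have hle1 : A * (φ n + L) ≤ ε ^ 2 * n := by
    refine le_trans (mul_le_mul_of_nonneg_right ?_ (by linarith)) hle
    linarith
  have hle2 : A₂ * (φ n + L) ≤ ε ^ 2 * n := by
    refine le_trans (mul_le_mul_of_nonneg_right ?_ (by linarith)) hle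
    linarith
  have hεA2 : ε ≤ 1 / A₂ := by
    refine hεA.trans (one_div_le_one_div_of_le hA₂ ?_)
    linarith
  have hTn : 0 < ∑ w ∈ Y.K n, g w := by
    by_contra hcon
    push Not at hcon
    have h2 : 0 < μ ^ n := by positivity
    have h3 : 0 < Real.exp L := Real.exp_pos _
    nlinarith
  have hc := hcore g hgB hgi n ε L hn hε0 hε1 hL hle1 hlow
  obtain ⟨f, hf⟩ : ∃ f : ℕ → ℝ, f = nf Y μ g n := ⟨_, rfl⟩
  have hf0 : f 0 = ∑ w ∈ Y.K n, g w := by rw [hf]; unfold nf; simp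
  rw [← hf0] at hc hTn
  have hdf : ∀ t, t ≤ r → |Df t f 0| ≤ B * f 0 * ε ^ t := by
    intro t ht
    have := hc g (fun n w hw => by rw [abs_of_nonneg (hgB n w hw).1]) hgi t ht
    rw [← hf] at this
    exact this
  have hBT : 0 ≤ B * f 0 := by positivity
  have hcomp : ∀ j, j ≤ r → f 0 ≤ 2 * f j := by
    intro j hj
    have h1 := df_comp hBT hε0 hε1 hdf j hj
    have h2 : (j : ℝ) ≤ r := by exact_mod_cast hj
    have h3 : (j : ℝ) * (2 ^ r * (B * f 0) * ε) ≤ f 0 / 2 := by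
      have h4 : ε * (A + A₂ + 2 * (r * (2 ^ r * B))) ≤ 1 := by rwa [le_div_iff₀ hA'0] at hεA
      have h5 : ε * (2 * (r * (2 ^ r * B))) ≤ 1 := by
        refine le_trans (mul_le_mul_of_nonneg_left ?_ hε0.le) h4
        linarith
      calc (j : ℝ) * (2 ^ r * (B * f 0) * ε) ≤ r * (2 ^ r * (B * f 0) * ε) := by
            gcongr
        _ = (ε * (2 * (r * (2 ^ r * B)))) * f 0 / 2 := by ring
        _ ≤ 1 * f 0 / 2 := by gcongr
        _ = f 0 / 2 := by ring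
    have := (abs_le.1 (h1.trans h3)).1
    linarith
  have hfpos : ∀ j, j ≤ r → 0 < f j := fun j hj => by
    have := hcomp j hj
    linarith
  have hgpos : ∀ i, i ≤ r → 0 < ∑ w ∈ Y.K (n + Y.s * i), g w := by
    intro i hi
    have h3 := hfpos i hi
    rw [hf] at h3
    have h5 : 0 < μ ^ (Y.s * i) := by positivity
    exact (div_pos_iff_of_pos_right h5).1 h3
  refine ⟨hgpos, fun hr => ?_, fun F hF hFi => ?_⟩
  · refine (hlog hr g hgB hgi n ε L hn hε0 hεA2 hL hle2 hlow).2.trans ?_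
    refine mul_le_mul_of_nonneg_right ?_ (by positivity)
    linarith
  · have h1 := hquo (nf Y μ F n) f 0 (f 0) ε hε0 hε1 hTn.le
      (fun j hj => by rw [zero_add]; exact hfpos j hj)
      (fun j hj => by
        rw [zero_add]
        have h2 := hcomp j hj
        have h3 := hfpos j hj
        have h4 : 2 ≤ Bq := by rw [hBq]; linarith [show 0 ≤ 2 ^ r * B by positivity]
        nlinarith)
      (fun s hs => by
        refine (hc F hF hFi s hs).trans ?_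
        have h2 : B ≤ Bq := by
          rw [hBq]
          have : (1 : ℝ) ≤ 2 ^ r := one_le_pow₀ (by norm_num)
          nlinarith
        calc B * f 0 * ε ^ s = B * (ε ^ s * f 0) := by ring
          _ ≤ Bq * (ε ^ s * f 0) := mul_le_mul_of_nonneg_right h2 (by positivity)
          _ = _ := by ring)
      (fun s j hsj => by
        rw [zero_add]
        refine (df_shift hBT hε0 hε1 hdf j s hsj).trans ?_
        have h4 : (2 : ℝ) ^ j ≤ 2 ^ r := pow_le_pow_right₀ (by norm_num) (by omega)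
        have h5 : 2 ^ j * B ≤ Bq := by
          rw [hBq]
          have := mul_le_mul_of_nonneg_right h4 hB.le
          linarith
        calc 2 ^ j * (B * f 0) * ε ^ s = (2 ^ j * B) * (ε ^ s * f 0) := by ring
          _ ≤ Bq * (ε ^ s * f 0) := mul_le_mul_of_nonneg_right h5 (by positivity)
          _ = _ := by ring)
    have h2 : Df r (fun j => nf Y μ F n j / f j) 0 = ∑ i ∈ range (r + 1), (-1 : ℝ) ^ i *
        (r.choose i : ℝ) *
          ((∑ w ∈ Y.K (n + Y.s * i), F w) / ∑ w ∈ Y.K (n + Y.s * i), g w) := by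
      unfold Df
      refine sum_congr rfl (fun i hi => ?_)
      have hi' := mem_range.1 hi
      congr 1
      rw [zero_add, hf]
      unfold nf
      have h3 := hgpos i (by omega)
      have h4 : 0 < μ ^ (Y.s * i) := by positivity
      field_simp
    rw [← h2]
    refine h1.trans ?_
    rw [div_self hTn.ne', mul_one]
    refine mul_le_mul_of_nonneg_right ?_ (by positivity)
    linarith

end

end Pool.Agent.K6.H37.KL
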