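import Pool.Agent.K6.H37.KL.Fin

/-!
# The law of the knot type: classes with an upper bound, classes closed under connected sums
-/

set_option autoImplicit false
set_option linter.unusedVariables false

namespace Pool.Agent.K6.H37.KL

open Finset Filter Topology KN Pool.Agent.N929.EG Pool.Agent.N226.KZ
open scoped Classical

noncomputable section

variable {Q : List Dir → Prop}

theorem pq_le {P Q : List Dir → Prop} (hPQ : ∀ w, SAP w → P w → Q w) (n : ℕ) :
    pq P n ≤ pq Q n := by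
  unfold pq
  apply div_le_div_of_nonneg_right _ (by positivity)
  have : a P n ≤ a Q n := by
    unfold a
    refine card_le_card fun w hw => ?_
    rw [mem_K] at hw ⊢
    exact ⟨hw.1, hw.2.1, hPQ w hw.2.1 hw.2.2⟩
  exact_mod_cast this

/-- **all classes** -/
theorem law_phi (hQ : KClass Q) (hne : ∃ w, SAP w ∧ Q w) {φ : ℕ → ℝ} (R : Rate φ)
    (hup : ∀ᶠ k : ℕ in atTop, pq Q (2 * k) ≤ gr Q ^ (2 * k) * Real.exp (φ (2 * k)))
    (r : ℕ) : ∃ c C : ℝ, 0 < c ∧ 0 < C ∧ ∀ᶠ k : ℕ in atTop, ∀ P : List Dir → Prop, KClass P →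
      (∀ w, SAP w → P w → Q w) → 0 < pq P (2 * k) →
      |Real.log (pq P (2 * k) / gr Q ^ (2 * k))| ≤ c * (2 * k) →
      (∀ i, i ≤ r → 0 < pq P (2 * k + 2 * i)) ∧
      (1 ≤ r → |dif r (fun m => Real.log (pq P m / gr Q ^ m)) k| ≤
        C * Real.sqrt ((φ (2 * k) + |Real.log (pq P (2 * k) / gr Q ^ (2 * k))|) / (2 * k)) ^ r) ∧
      ∀ F : List Dir → ℝ, KInv F → (∀ w, |F w| ≤ 1) → |dif r (mean F P) k| ≤
        C * Real.sqrt ((φ (2 * k) + |Real.log (pq P (2 * k) / gr Q ^ (2 * k))|) / (2 * k)) ^ r := by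
  obtain ⟨g1, -, g2⟩ := gr_bounds Q hQ hne
  obtain ⟨A, C, hA, hC, h⟩ := law_gen hQ hne R hup r
  refine ⟨1 / (2 * A), C, by positivity, hC, ?_⟩
  have hlim : ∀ᶠ k : ℕ in atTop, φ (2 * k) ≤ 1 / (2 * A) * (2 * k) := by
    have h2 : Tendsto (fun k : ℕ => 2 * k) atTop atTop :=
      tendsto_atTop_mono (fun k => by simp only [id]; omega) tendsto_id
    have h3 : (0 : ℝ) < 1 / (2 * A) := by positivity
    filter_upwards [h2.eventually (R.lim.eventually_lt_const h3), eventually_ge_atTop 1]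
      with k h4 h5
    have hk0 : (1 : ℝ) ≤ k := by exact_mod_cast h5
    push_cast at h4
    rw [div_lt_iff₀ (by linarith)] at h4
    exact h4.le
  filter_upwards [h, hlim, eventually_ge_atTop 1] with k h1 h2 h3
  intro P hP hPQ hp hc
  have hk0 : (1 : ℝ) ≤ k := by exact_mod_cast h3
  have hg : 0 < gr Q ^ (2 * k) := by
    have : 0 < gr Q := by linarith
    positivity
  refine h1 P hP hPQ _ (abs_nonneg _) ?_ ?_
  · rw [← div_le_iff₀ hp]
    have e : Real.log (gr Q ^ (2 * k) / pq P (2 * k)) ≤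
        |Real.log (pq P (2 * k) / gr Q ^ (2 * k))| := by
      rw [← inv_div, Real.log_inv]
      exact neg_le_abs _
    rwa [Real.log_le_iff_le_exp (div_pos hg hp)] at e
  · calc A * (φ (2 * k) + |Real.log (pq P (2 * k) / gr Q ^ (2 * k))|)
        ≤ A * (1 / (2 * A) * (2 * k) + 1 / (2 * A) * (2 * k)) := by gcongr
      _ = 2 * k := by field_simp; ring

/-- **classes closed under connected sums** -/
theorem law_csum (hQ : KClass Q) (hne : ∃ w, SAP w ∧ Q w) (hc : CSum Q) (r : ℕ) :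
    ∃ c C : ℝ, 0 < c ∧ 0 < C ∧ ∀ᶠ k : ℕ in atTop, ∀ P : List Dir → Prop, KClass P →
      (∀ w, SAP w → P w → Q w) → Real.exp (-(c * (2 * k))) * gr Q ^ (2 * k) ≤ pq P (2 * k) →
      (∀ i, i ≤ r → 0 < pq P (2 * k + 2 * i)) ∧
      (1 ≤ r → |dif r (fun m => Real.log (pq P m / gr Q ^ m)) k| ≤
        C * Real.sqrt (Real.log (gr Q ^ (2 * k) / pq P (2 * k)) / (2 * k)) ^ r) ∧
      ∀ F : List Dir → ℝ, KInv F → (∀ w, |F w| ≤ 1) → |dif r (mean F P) k| ≤
        C * Real.sqrt (Real.log (gr Q ^ (2 * k) / pq P (2 * k)) / (2 * k)) ^ r := by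
  obtain ⟨g1, -, g2⟩ := gr_bounds Q hQ hne
  have hlow := low_log hQ hne hc
  have hup : ∀ᶠ k : ℕ in atTop, pq Q (2 * k) ≤
      gr Q ^ (2 * k) * Real.exp (0 + Real.log ((2 * k : ℕ) : ℝ)) := by
    filter_upwards [hlow, class_pos Q hQ hne, eventually_ge_atTop 1] with k h1 h2 h3
    have hk0 : (1 : ℝ) ≤ k := by exact_mod_cast h3
    have hg : 0 < gr Q ^ (2 * k) := by
      have : 0 < gr Q := by linarith
      positivity
    have h4 : 0 ≤ Real.log (2 * (k : ℝ)) := Real.log_nonneg (by linarith)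
    have h6 : 1 ≤ gr Q ^ (2 * k) / pq Q (2 * k) := by
      by_contra hcon
      push Not at hcon
      have h7 := Real.log_neg (div_pos hg h2) hcon
      linarith
    rw [le_div_iff₀ h2, one_mul] at h6
    push_cast
    have h8 : 1 ≤ Real.exp (0 + Real.log (2 * (k : ℝ))) := Real.one_le_exp (by linarith)
    calc pq Q (2 * k) ≤ gr Q ^ (2 * k) * 1 := by linarith
      _ ≤ _ := mul_le_mul_of_nonneg_left h8 hg.le
  obtain ⟨c, C, hc0, hC, hA⟩ := law_phi hQ hne (rate_log 0 le_rfl) hup r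
  refine ⟨c, C * Real.sqrt 3 ^ r, hc0, by positivity, ?_⟩
  filter_upwards [hA, hlow, class_pos Q hQ hne, eventually_ge_atTop 1] with k h1 h3 h4 h5
  intro P hP hPQ hpc
  have hk0 : (1 : ℝ) ≤ k := by exact_mod_cast h5
  have hg : 0 < gr Q ^ (2 * k) := by
    have : 0 < gr Q := by linarith
    positivity
  have hp : 0 < pq P (2 * k) := lt_of_lt_of_le (by positivity) hpc
  have hl : 0 ≤ Real.log (2 * (k : ℝ)) := Real.log_nonneg (by linarith)
  -- `P` has fewer polygons than `Q`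
  have hle : Real.log (gr Q ^ (2 * k) / pq Q (2 * k)) ≤
      Real.log (gr Q ^ (2 * k) / pq P (2 * k)) := by
    apply Real.log_le_log (div_pos hg h4)
    exact div_le_div_of_nonneg_left hg.le hp (pq_le hPQ _)
  have e : |Real.log (pq P (2 * k) / gr Q ^ (2 * k))| =
      Real.log (gr Q ^ (2 * k) / pq P (2 * k)) := by
    rw [← inv_div, Real.log_inv, abs_neg, abs_of_nonneg (by linarith)]
  have hc2 : |Real.log (pq P (2 * k) / gr Q ^ (2 * k))| ≤ c * (2 * k) := by
    rw [e, Real.log_le_iff_le_exp (div_pos hg hp), div_le_iff₀ hp]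
    have h6 := mul_le_mul_of_nonneg_left hpc (Real.exp_pos (c * (2 * k))).le
    rw [← mul_assoc, ← Real.exp_add, add_neg_cancel, Real.exp_zero, one_mul] at h6
    exact h6
  obtain ⟨b0, b1, b2⟩ := h1 P hP hPQ hp hc2
  have hfin : C * Real.sqrt ((0 + Real.log ((2 * k : ℕ) : ℝ) +
      |Real.log (pq P (2 * k) / gr Q ^ (2 * k))|) / (2 * k)) ^ r ≤
      C * Real.sqrt 3 ^ r * Real.sqrt (Real.log (gr Q ^ (2 * k) / pq P (2 * k)) / (2 * k)) ^ r := by
    rw [mul_assoc, ← mul_pow]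
    refine mul_le_mul_of_nonneg_left (pow_le_pow_left₀ (Real.sqrt_nonneg _) ?_ r) hC.le
    rw [← Real.sqrt_mul (by norm_num), e]
    apply Real.sqrt_le_sqrt
    rw [← mul_div_assoc]
    apply div_le_div_of_nonneg_right _ (by linarith)
    push_cast
    linarith
  exact ⟨b0, fun hr => (b1 hr).trans hfin, fun F hF hF1 => (b2 F hF hF1).trans hfin⟩

/-- in a class closed under connected sums the error tends to zero -/
theorem err_csum (hQ : KClass Q) (hne : ∃ w, SAP w ∧ Q w) (hc : CSum Q) :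
    Tendsto (fun k : ℕ => Real.log (gr Q ^ (2 * k) / pq Q (2 * k)) / (2 * k)) atTop (𝓝 0) := by
  have h1 := (Pool.Agent.R945.KR.log_csum Q hQ hne hc).neg.mul_const (1 / 2 : ℝ)
  rw [neg_zero, zero_mul] at h1
  refine h1.congr fun k => ?_
  unfold TH966.KS.yq
  have e : Real.log (gr Q ^ (2 * k) / pq Q (2 * k)) =
      -Real.log (pq Q (2 * k) / gr Q ^ (2 * k)) := by
    rw [← inv_div, Real.log_inv]
  rw [e]
  ring

/-- functions of polynomial size: truncation -/
theorem unb {P : List Dir → Prop} {r p k : ℕ} (hk : 1 ≤ k) {B : ℝ}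
    (hB : ∀ F : List Dir → ℝ, KInv F → (∀ w, |F w| ≤ 1) → |dif r (mean F P) k| ≤ B)
    {F : List Dir → ℝ} (hF : KInv F) (hFp : ∀ w, SAP w → |F w| ≤ (w.length : ℝ) ^ p) :
    |dif r (mean F P) k| ≤ ((r : ℝ) + 1) ^ p * (2 * (k : ℝ)) ^ p * B := by
  have hk0 : (1 : ℝ) ≤ k := by exact_mod_cast hk
  have hr0 : (0 : ℝ) ≤ r := Nat.cast_nonneg r
  obtain ⟨M, hM⟩ : ∃ M : ℝ, M = (2 * (k : ℝ) + 2 * r) ^ p := ⟨_, rfl⟩
  have hM0 : 0 < M := by rw [hM]; positivity
  obtain ⟨F', hF'⟩ : ∃ F' : List Dir → ℝ, F' = fun w => max (-1) (min 1 (F w / M)) := ⟨_, rfl⟩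
  have h1 : KInv F' := by
    intro w w' h h' hs
    rw [hF']
    simp only
    rw [hF w w' h h' hs]
  have h2 : ∀ w, |F' w| ≤ 1 := by
    intro w
    rw [hF', abs_le]
    exact ⟨le_max_left _ _, max_le (by norm_num) (min_le_left _ _)⟩
  have h3 := hB F' h1 h2
  have h4 : dif r (mean F P) k = M * dif r (mean F' P) k := by
    unfold dif
    rw [mul_sum]
    refine sum_congr rfl fun i hi => ?_
    have hi' := mem_range.1 hi
    have h5 : mean F P (2 * k + 2 * i) = M * mean F' P (2 * k + 2 * i) := by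
      unfold mean
      rw [← mul_div_assoc, mul_sum]
      congr 1
      refine sum_congr rfl fun w hw => ?_
      obtain ⟨e1, e2, -⟩ := mem_K.1 hw
      have e3 := hFp w e2
      have e4 : |F w| ≤ M := by
        refine e3.trans ?_
        rw [hM, e1]
        push_cast
        have : (i : ℝ) ≤ r := by exact_mod_cast (by omega : i ≤ r)
        gcongr
      have e5 : -1 ≤ F w / M := by
        rw [le_div_iff₀ hM0]
        have := (abs_le.1 e4).1
        linarith
      have e6 : F w / M ≤ 1 := by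
        rw [div_le_one hM0]
        exact (abs_le.1 e4).2
      rw [hF']
      simp only
      rw [min_eq_right e6, max_eq_right e5]
      field_simp
    rw [h5]
    ring
  rw [h4, abs_mul, abs_of_pos hM0]
  have h6 : M ≤ ((r : ℝ) + 1) ^ p * (2 * (k : ℝ)) ^ p := by
    rw [hM, ← mul_pow]
    refine pow_le_pow_left₀ (by positivity) ?_ p
    nlinarith
  have h7 : 0 ≤ B := (abs_nonneg _).trans h3
  exact (mul_le_mul_of_nonneg_left h3 hM0.le).trans (mul_le_mul_of_nonneg_right h6 h7)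

theorem all_class : KClass (fun _ => True) := ⟨fun _ _ _ _ _ _ => trivial, fun _ _ _ _ _ _ => trivial⟩

theorem all_csum : CSum (fun _ => True) := fun _ _ _ _ _ _ => trivial

end

end Pool.Agent.K6.H37.KL
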