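import Pool.Agent.K6.H37.KL.Sys

/-!
# The law of the knot type: regularity to all orders, uniformly in the class and in the functional
-/

set_option autoImplicit false
set_option linter.unusedVariables false

namespace Pool.Agent.K6.H37.KL

open Finset Filter Topology KN Pool.Agent.N929.EG Pool.Agent.N226.KZ
open scoped Classical

noncomputable section

variable {Q : List Dir → Prop}

/-- the mean of `F` over the polygons of length `n` of class `P` -/
def mean (F : List Dir → ℝ) (P : List Dir → Prop) (n : ℕ) : ℝ := (∑ w ∈ K P n, F w) / a P n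

/-- iterated differences along the even numbers, at `2 k` -/
def dif (r : ℕ) (f : ℕ → ℝ) (k : ℕ) : ℝ :=
  ∑ i ∈ range (r + 1), (-1 : ℝ) ^ i * (r.choose i : ℝ) * f (2 * k + 2 * i)

theorem a_pq_pos {P : List Dir → Prop} {k : ℕ} (hk : 1 ≤ k) (h : 0 < (a P (2 * k) : ℝ)) :
    0 < pq P (2 * k) := by
  have h1 := a_pq P hk
  have hk0 : (0 : ℝ) < k := by exact_mod_cast hk
  by_contra hcon
  push Not at hcon
  rw [h1] at h
  nlinarith

theorem law_gen (hQ : KClass Q) (hne : ∃ w, SAP w ∧ Q w) {φ : ℕ → ℝ} (R : Rate φ)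
    (hup : ∀ᶠ k : ℕ in atTop, pq Q (2 * k) ≤ gr Q ^ (2 * k) * Real.exp (φ (2 * k)))
    (r : ℕ) : ∃ A C : ℝ, 0 < A ∧ 0 < C ∧ ∀ᶠ k : ℕ in atTop, ∀ P : List Dir → Prop, KClass P →
      (∀ w, SAP w → P w → Q w) → ∀ L : ℝ, 0 ≤ L →
      gr Q ^ (2 * k) ≤ Real.exp L * pq P (2 * k) → A * (φ (2 * k) + L) ≤ 2 * k →
      (∀ i, i ≤ r → 0 < pq P (2 * k + 2 * i)) ∧
      (1 ≤ r → |dif r (fun m => Real.log (pq P m / gr Q ^ m)) k| ≤
        C * Real.sqrt ((φ (2 * k) + L) / (2 * k)) ^ r) ∧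
      ∀ F : List Dir → ℝ, KInv F → (∀ w, |F w| ≤ 1) →
        |dif r (mean F P) k| ≤ C * Real.sqrt ((φ (2 * k) + L) / (2 * k)) ^ r := by
  obtain ⟨g1, -, g2⟩ := gr_bounds Q hQ hne
  have hμ : 1 ≤ gr Q := by linarith
  have hμ0 : 0 < gr Q := by linarith
  obtain ⟨Y, H, hY⟩ := sysA Q hQ
  obtain ⟨K₁, hK1, G⟩ := gr_sys hQ hne H R hup
  obtain ⟨A', C', hA', hC', h⟩ := cond_mean Y G r
  obtain ⟨C2, hC2, hlgn⟩ : ∃ C2 : ℝ, 0 < C2 ∧ (1 ≤ r → ∀ n : ℕ, 2 ≤ n →
      |∑ i ∈ range (r + 1), (-1 : ℝ) ^ i * (r.choose i : ℝ) *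
        Real.log (((n + 2 * i : ℕ) : ℝ) + 1)| ≤ C2 * (1 / Real.sqrt (n : ℝ)) ^ r) := by
    by_cases hr : 1 ≤ r
    · obtain ⟨C2, h1, h2⟩ := Pool.Agent.N835.EG.lgn 2 r hr
      exact ⟨C2, h1, fun _ => h2⟩
    · exact ⟨1, one_pos, fun h => absurd h hr⟩
  refine ⟨2 * A' ^ 3 * K₁ + 1, C' * Real.sqrt (2 * A' * K₁) ^ r + C2 * Real.sqrt 2 ^ r,
    by positivity, by positivity, ?_⟩
  filter_upwards [eventually_ge_atTop 3] with k hk3
  intro P hP hPQ L hL hlow hA
  have hk' : (3 : ℝ) ≤ k := by exact_mod_cast hk3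
  obtain ⟨n, hn⟩ : ∃ n : ℕ, n = 2 * k - 1 := ⟨_, rfl⟩
  have hn1 : n + 1 = 2 * k := by omega
  have hnc : (n : ℝ) + 1 = 2 * k := by exact_mod_cast hn1
  have hn5 : (5 : ℝ) ≤ n := by linarith
  have hlk : 1 ≤ φ (2 * k) := by
    refine le_trans ?_ (R.log (2 * k) (by omega))
    push_cast
    rw [Real.le_log_iff_exp_le (by linarith)]
    have := Real.exp_one_lt_d9
    linarith
  obtain ⟨x, hx⟩ : ∃ x : ℝ, x = (φ (2 * k) + L) / (2 * k) := ⟨_, rfl⟩
  have hx0 : 0 < x := by rw [hx]; positivity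
  have hx1 : x * (2 * k) = φ (2 * k) + L := by
    rw [hx]; field_simp
  rw [← hx]
  -- the numbers
  have hcard : ∀ i : ℕ, ∑ w ∈ Y.K (n + Y.s * i), FF P (fun _ => 1) w = a P (2 * k + 2 * i) := by
    intro i
    rw [H.s, ff_card H hPQ (by omega)]
    congr 2
    omega
  have hcpq : ∀ i : ℕ, (a P (2 * k + 2 * i) : ℝ) =
      pq P (2 * k + 2 * i) * (2 * (2 * ((k : ℝ) + i))) := by
    intro i
    rw [show 2 * k + 2 * i = 2 * (k + i) by ring, a_pq P (by omega)]
    push_cast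
    ring
  have hcard0 := hcard 0
  have hcpq0 := hcpq 0
  rw [mul_zero, add_zero, mul_zero, add_zero] at hcard0
  rw [mul_zero, add_zero, Nat.cast_zero, add_zero] at hcpq0
  have hpk : 0 < pq P (2 * k) := by
    have h1 : 0 < gr Q ^ (2 * k) := by positivity
    by_contra hcon
    push Not at hcon
    have h3 := Real.exp_pos L
    nlinarith
  -- application
  have hA'0 : 0 < A' := by linarith
  have hε0 : 0 < Real.sqrt (2 * A' * K₁) * Real.sqrt x := by positivity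
  have hsq : (Real.sqrt (2 * A' * K₁) * Real.sqrt x) ^ 2 = 2 * A' * K₁ * x := by
    rw [mul_pow, Real.sq_sqrt (by positivity), Real.sq_sqrt hx0.le]
  have hεA : Real.sqrt (2 * A' * K₁) * Real.sqrt x ≤ 1 / A' := by
    apply le_of_sq_le_sq _ (by positivity)
    rw [hsq, div_pow, one_pow, le_div_iff₀ (by positivity)]
    have h1 : (2 * A' ^ 3 * K₁) * (φ (2 * k) + L) ≤ 2 * k := by
      have : 0 ≤ φ (2 * k) + L := by linarith
      nlinarith
    rw [← hx1] at h1
    have h2 : (2 * A' ^ 3 * K₁ * x) * (2 * k) ≤ 1 * (2 * k) := by linarith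
    have h3 := le_of_mul_le_mul_right h2 (by linarith)
    calc 2 * A' * K₁ * x * A' ^ 2 = 2 * A' ^ 3 * K₁ * x := by ring
      _ ≤ 1 := h3
  have hle : A' * (K₁ * φ n + L) ≤
      (Real.sqrt (2 * A' * K₁) * Real.sqrt x) ^ 2 * n := by
    rw [hsq]
    have h1 : φ n ≤ φ (2 * k) := R.mono (by omega)
    have h2 : K₁ * φ n + L ≤ K₁ * (φ (2 * k) + L) := by nlinarith
    have h3 : (k : ℝ) ≤ n := by linarith
    calc A' * (K₁ * φ n + L) ≤ A' * (K₁ * (φ (2 * k) + L)) := by gcongr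
      _ = A' * K₁ * (x * (2 * k)) := by rw [hx1]; ring
      _ = 2 * A' * K₁ * x * k := by ring
      _ ≤ 2 * A' * K₁ * x * n := by gcongr
  have hlow' : gr Q ^ n ≤ Real.exp L * ∑ w ∈ Y.K n, FF P (fun _ => 1) w := by
    rw [hcard0, hcpq0]
    have h1 : gr Q ^ n ≤ gr Q ^ (2 * k) := pow_le_pow_right₀ hμ (by omega)
    have h2 : Real.exp L * pq P (2 * k) ≤
        Real.exp L * (pq P (2 * k) * (2 * (2 * (k : ℝ)))) := by
      have h3 : pq P (2 * k) * 1 ≤ pq P (2 * k) * (2 * (2 * (k : ℝ))) :=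
        mul_le_mul_of_nonneg_left (by linarith) hpk.le
      rw [mul_one] at h3
      exact mul_le_mul_of_nonneg_left h3 (Real.exp_pos _).le
    linarith
  obtain ⟨b1, b2, b3⟩ := h (FF P (fun _ => 1)) (fun n w _ => ff_one_bd P w)
    (ff_iv (Q := Q) hY hP kinv_one) n _ L (by omega) hε0 hεA hL hle hlow'
  have hapos : ∀ i, i ≤ r → 0 < (a P (2 * k + 2 * i) : ℝ) := fun i hi => by
    have := b1 i hi
    rwa [hcard] at this
  have hppos : ∀ i, i ≤ r → 0 < pq P (2 * k + 2 * i) := by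
    intro i hi
    have h3 := hapos i hi
    rw [show 2 * k + 2 * i = 2 * (k + i) by ring] at h3 ⊢
    exact a_pq_pos (by omega) h3
  refine ⟨hppos, fun hr => ?_, fun F hF hF1 => ?_⟩
  · have h1 := b2 hr
    have h2 := hlgn hr n (by omega)
    have hzero : ∑ i ∈ range (r + 1), (-1 : ℝ) ^ i * (r.choose i : ℝ) *
        (Real.log 2 + Real.log (gr Q)) = 0 := by
      rw [← sum_mul]
      have h := (add_pow (-1 : ℝ) 1 r).symm
      simp only [one_pow, mul_one] at h
      rw [h, neg_add_cancel, zero_pow (by omega), zero_mul]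
    have hsum : ∑ i ∈ range (r + 1), (-1 : ℝ) ^ i * (r.choose i : ℝ) *
          Real.log ((∑ w ∈ Y.K (n + Y.s * i), FF P (fun _ => 1) w) / gr Q ^ (n + Y.s * i)) =
        dif r (fun m => Real.log (pq P m / gr Q ^ m)) k +
        ∑ i ∈ range (r + 1), (-1 : ℝ) ^ i * (r.choose i : ℝ) *
          Real.log (((n + 2 * i : ℕ) : ℝ) + 1) := by
      unfold dif
      rw [← add_zero (∑ i ∈ range (r + 1), (-1 : ℝ) ^ i * (r.choose i : ℝ) *
          Real.log (((n + 2 * i : ℕ) : ℝ) + 1)), ← hzero, ← sum_add_distrib, ← sum_add_distrib]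
      refine sum_congr rfl fun i hi => ?_
      have hi' := mem_range.1 hi
      have hpi : 0 < pq P (2 * k + 2 * i) := hppos i (by omega)
      have e1 : (((n + 2 * i : ℕ) : ℝ) + 1) = 2 * ((k : ℝ) + i) := by
        push_cast
        linarith
      have hki : 0 < (k : ℝ) + i := by positivity
      rw [hcard i, hcpq i, e1, H.s]
      have e2 : gr Q ^ (2 * k + 2 * i) = gr Q ^ (n + 2 * i) * gr Q := by
        rw [← pow_succ]
        congr 1
        omega
      beta_reduce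
      rw [e2]
      have hg : 0 < gr Q ^ (n + 2 * i) := by positivity
      rw [Real.log_div (by positivity) hg.ne', Real.log_div hpi.ne' (by positivity),
        Real.log_mul hpi.ne' (by positivity), Real.log_mul hg.ne' hμ0.ne',
        Real.log_mul (by norm_num : (2 : ℝ) ≠ 0) (by positivity)]
      ring
    rw [hsum] at h1
    have h3 : (1 / Real.sqrt (n : ℝ)) ^ r ≤ Real.sqrt 2 ^ r * Real.sqrt x ^ r := by
      rw [← mul_pow]
      refine pow_le_pow_left₀ (by positivity) ?_ r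
      rw [← Real.sqrt_mul (by norm_num), ← Real.sqrt_one, ← Real.sqrt_div (by norm_num)]
      apply Real.sqrt_le_sqrt
      rw [div_le_iff₀ (by linarith)]
      have h4 : (k : ℝ) ≤ n := by linarith
      calc (1 : ℝ) ≤ φ (2 * k) + L := by linarith
        _ = 2 * x * k := by rw [← hx1]; ring
        _ ≤ 2 * x * n := by gcongr
    have h4 : ∀ u v : ℝ, |u + v| ≤ C' * (Real.sqrt (2 * A' * K₁) * Real.sqrt x) ^ r →
        |v| ≤ C2 * (1 / Real.sqrt (n : ℝ)) ^ r →
        |u| ≤ (C' * Real.sqrt (2 * A' * K₁) ^ r + C2 * Real.sqrt 2 ^ r) * Real.sqrt x ^ r := by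
      intro u v hu hv
      have e : u = (u + v) - v := by ring
      rw [e]
      calc |u + v - v| ≤ |u + v| + |v| := abs_sub _ _
        _ ≤ C' * (Real.sqrt (2 * A' * K₁) * Real.sqrt x) ^ r +
            C2 * (1 / Real.sqrt (n : ℝ)) ^ r := add_le_add hu hv
        _ ≤ C' * (Real.sqrt (2 * A' * K₁) * Real.sqrt x) ^ r +
            C2 * (Real.sqrt 2 ^ r * Real.sqrt x ^ r) := by gcongr
        _ = _ := by rw [mul_pow]; ring
    exact h4 _ _ h1 h2
  · have h1 := b3 (FF P F) (fun n w _ => ff_le P hF1 w) (ff_iv (Q := Q) hY hP hF)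
    have h2 : ∑ i ∈ range (r + 1), (-1 : ℝ) ^ i * (r.choose i : ℝ) *
        ((∑ w ∈ Y.K (n + Y.s * i), FF P F w) /
          ∑ w ∈ Y.K (n + Y.s * i), FF P (fun _ => 1) w) = dif r (mean F P) k := by
      unfold dif mean
      refine sum_congr rfl fun i _ => ?_
      rw [hcard i, H.s, ff_sum H hPQ F (by omega)]
      congr 3
      · have e : n + 2 * i + 1 = 2 * k + 2 * i := by omega
        rw [e]
    rw [h2] at h1
    refine h1.trans ?_
    rw [mul_pow]
    have h3 : 0 ≤ C2 * Real.sqrt 2 ^ r * Real.sqrt x ^ r := by positivity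
    nlinarith

end

end Pool.Agent.K6.H37.KL
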