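import Pool.Agent.N226.KZ.CorC
import Pool.Agent.K6.H37.KL.Abs

/-!
# Polygons of given knot types: all invariant functionals of one system of local moves
-/

set_option autoImplicit false
set_option linter.unusedVariables false

namespace Pool.Agent.K6.H37.KL

open Finset Filter Topology KN Pool.Agent.N929.EG Pool.Agent.N226.KZ
open TH966.KO (SS mem_SS)
open Pool.Agent.N578.EG (path_inj)
open scoped Classical

noncomputable section

/-- the system of moves for the polygons of class `Q`; the moves keep all classes `P` -/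
theorem sysA (Q : List Dir → Prop) (hQ : KClass Q) :
    ∃ Y : TS (List Z3) (List Z3 × List Z3), SysQ Q Y ∧ ∀ P : List Dir → Prop, KClass P →
      ∀ n w q, w ∈ Y.K n → q ∈ Y.S w → (RQ P w ↔ RQ P (Y.ins w q)) := by
  obtain ⟨X, Z, hX, hs, hT⟩ := Pool.Agent.N953.EG.geo3
  obtain ⟨Y, h1, h2, h3, h4, h5, h6⟩ := s_win Z3 X A3 Z
  have hK : ∀ n w, w ∈ Y.K n ↔ ∃ u ∈ SS n, w = (path u).reverse := by
    intro n w
    rw [h3, hX]
    exact Pool.Agent.N558.EG.wk3 n w
  have hR : ∀ P : List Dir → Prop, KClass P → ∀ n w q, w ∈ Y.K n → q ∈ Y.S w →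
      (RQ P w ↔ RQ P (Y.ins w q)) := by
    intro P hP n w q hw hq
    have hw' := Y.ins_K n w q hw hq
    have hwk := (h3 n w).1 hw
    rw [h4] at hq
    have hl := last_rep' (U := q.1) (U' := q.2) (Z.pair _ _ hq.1) hwk.2 hq.2
    rw [← h6] at hl
    obtain ⟨u, hu, e1⟩ := (hK n w).1 hw
    obtain ⟨u', hu', e2⟩ := (hK _ _).1 hw'
    have hpos : pos u' = pos u := by
      rw [e2, e1, getLast_path, getLast_path] at hl
      exact Option.some.inj hl
    obtain ⟨hn, hsaw⟩ := mem_SS.1 hu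
    obtain ⟨hn', hsaw'⟩ := mem_SS.1 hu'
    rw [h1, hs] at hn'
    have e3 : (path u').reverse = rep (path u).reverse q.1 q.2 := by
      rw [← e2, ← e1, h6]
    rw [e2, e1, rq_iff, rq_iff]
    refine exists_congr fun d => ?_
    rw [hpos]
    refine and_congr_right fun hc => ?_
    have hpar := even_of_closed (w := d :: u) hc
    rw [List.length_cons] at hpar
    rcases Nat.lt_or_ge n 3 with h | h
    · have hn1 : n = 1 := by omega
      rw [if_pos (by omega), if_neg (by omega)]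
      exact q_sq hP (sap_cons (by omega) hsaw' (by rw [hpos]; exact hc))
        (by rw [List.length_cons]; omega)
    · rw [if_neg (by omega), if_neg (by omega)]
      rw [hT, e1] at hq
      exact Pool.Agent.N578.EG.kni P (GEN.inv_of P hP) n d u u' hu h hc q.1 q.2 hq.1 hq.2 e3
  refine ⟨res Y (RQ Q) (hR Q hQ), ⟨h1.trans hs, ?_, ?_, ?_⟩, ?_⟩
  · intro n w
    show w ∈ (Y.K n).filter (RQ Q) ↔ _
    rw [mem_filter, hK]
    constructor
    · rintro ⟨⟨u, hu, e⟩, hr⟩; exact ⟨u, hu, e, hr⟩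
    · rintro ⟨u, hu, e, hr⟩; exact ⟨⟨u, hu, e⟩, hr⟩
  · intro n u hu
    show _ ≤ (Y.S (path u).reverse).card
    exact (Pool.Agent.N546.EG.cnt3 n u hu (Y.S (path u).reverse)).1 (fun q => by rw [h4, hT])
  · intro n u hu
    show _ ≤ (Y.B (path u).reverse).card
    exact (Pool.Agent.N546.EG.cnt3 n u hu (Y.B (path u).reverse)).2 (fun q => by rw [h5, hT])
  · intro P hP n w q hw hq
    exact hR P hP n w q (mem_filter.1 hw).1 hq

/-! ### functions of the knot type -/

/-- `F` depends only on the (unoriented) knot type of a polygon -/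
def KInv (F : List Dir → ℝ) : Prop := ∀ w w' : List Dir, SAP w → SAP w' →
  (Same (vl w) (vl w') ∨ Same (vl w) (vl w').reverse) → F w = F w'

theorem KInv.cls {F : List Dir → ℝ} (hF : KInv F) (c : ℝ) : KClass (fun w => F w = c) :=
  ⟨fun w w' h h' hs e => by rw [← hF w w' h h' (Or.inl hs)]; exact e,
    fun w w' h h' hs e => by rw [← hF w w' h h' (Or.inr hs)]; exact e⟩

/-- the value of `F` at the polygon obtained by closing a walk -/
def vf (F : List Dir → ℝ) (w : List Z3) : ℝ :=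
  if h : ∃ c : ℝ, RQ (fun x => F x = c) w then h.choose else 0

theorem rq_unique {F : List Dir → ℝ} {w : List Z3} {c c' : ℝ} (h : RQ (fun x => F x = c) w)
    (h' : RQ (fun x => F x = c') w) : c = c' := by
  obtain ⟨u, d, e1, e2, e3⟩ := h
  obtain ⟨u', d', f1, f2, f3⟩ := h'
  have h1 := path_inj u u' (List.reverse_injective (e1.symm.trans f1))
  subst h1
  rw [← f2] at e2
  have h2 := KN.vec_inj (add_left_cancel e2)
  subst h2
  by_cases hu : u.length = 1
  · rw [if_pos hu] at e3 f3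
    exact e3.symm.trans f3
  · rw [if_neg hu] at e3 f3
    exact e3.symm.trans f3

theorem vf_eq {F : List Dir → ℝ} {w : List Z3} {c : ℝ} (h : RQ (fun x => F x = c) w) :
    vf F w = c := by
  have h1 : ∃ c : ℝ, RQ (fun x => F x = c) w := ⟨c, h⟩
  unfold vf
  rw [dif_pos h1]
  exact rq_unique h1.choose_spec h

theorem rq_vf {F : List Dir → ℝ} {P : List Dir → Prop} {w : List Z3} (h : RQ P w) :
    RQ (fun x => F x = vf F w) w := by
  obtain ⟨u, d, e1, e2, -⟩ := h
  have h1 : RQ (fun x => F x = (if u.length = 1 then F sqw else F (d :: u))) w := by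
    refine ⟨u, d, e1, e2, ?_⟩
    by_cases hu : u.length = 1
    · rw [if_pos hu, if_pos hu]
    · rw [if_neg hu, if_neg hu]
  rw [vf_eq h1]
  exact h1

theorem vf_abs {F : List Dir → ℝ} (hF : ∀ w, |F w| ≤ 1) (w : List Z3) : |vf F w| ≤ 1 := by
  by_cases h : ∃ c : ℝ, RQ (fun x => F x = c) w
  · obtain ⟨c, hc⟩ := h
    rw [vf_eq hc]
    obtain ⟨u, d, -, -, e⟩ := hc
    by_cases hu : u.length = 1
    · rw [if_pos hu] at e
      rw [← e]
      exact hF _
    · rw [if_neg hu] at e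
      rw [← e]
      exact hF _
  · unfold vf
    rw [dif_neg h, abs_zero]
    exact zero_le_one

/-- the functional: `F` on the class `P`, zero outside -/
def FF (P : List Dir → Prop) (F : List Dir → ℝ) (w : List Z3) : ℝ := if RQ P w then vf F w else 0

theorem ff_iv {Q P : List Dir → Prop} {Y : TS (List Z3) (List Z3 × List Z3)}
    (hY : ∀ P : List Dir → Prop, KClass P →
      ∀ n w q, w ∈ Y.K n → q ∈ Y.S w → (RQ P w ↔ RQ P (Y.ins w q)))
    (hP : KClass P) {F : List Dir → ℝ} (hF : KInv F) : Iv Y (FF P F) := by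
  intro n w hw q hq
  unfold FF
  have h1 := hY P hP n w q hw hq
  by_cases h : RQ P w
  · rw [if_pos h, if_pos (h1.1 h)]
    exact vf_eq ((hY _ (hF.cls (vf F w)) n w q hw hq).1 (rq_vf h))
  · rw [if_neg h, if_neg (fun h2 => h (h1.2 h2))]

theorem kinv_one : KInv (fun _ => 1) := fun _ _ _ _ _ => rfl

theorem vf_one {P : List Dir → Prop} {w : List Z3} (h : RQ P w) : vf (fun _ => 1) w = 1 := by
  apply vf_eq
  obtain ⟨u, d, e1, e2, -⟩ := h
  exact ⟨u, d, e1, e2, by simp⟩

theorem ff_one (P : List Dir → Prop) (w : List Z3) :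
    FF P (fun _ => 1) w = if RQ P w then 1 else 0 := by
  unfold FF
  by_cases h : RQ P w
  · rw [if_pos h, if_pos h, vf_one h]
  · rw [if_neg h, if_neg h]

theorem ff_one_bd (P : List Dir → Prop) (w : List Z3) :
    0 ≤ FF P (fun _ => 1) w ∧ FF P (fun _ => 1) w ≤ 1 := by
  rw [ff_one]
  by_cases h : RQ P w
  · rw [if_pos h]; exact ⟨zero_le_one, le_rfl⟩
  · rw [if_neg h]; exact ⟨le_rfl, zero_le_one⟩

theorem ff_le (P : List Dir → Prop) {F : List Dir → ℝ} (hF : ∀ w, |F w| ≤ 1) (w : List Z3) :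
    |FF P F w| ≤ FF P (fun _ => 1) w := by
  rw [ff_one]
  unfold FF
  by_cases h : RQ P w
  · rw [if_pos h, if_pos h]; exact vf_abs hF w
  · rw [if_neg h, if_neg h, abs_zero]

/-- the sums over the system are the sums over the polygons of class `P` -/
theorem ff_sum {Q P : List Dir → Prop} {Y : TS (List Z3) (List Z3 × List Z3)} (H : SysQ Q Y)
    (hPQ : ∀ w, SAP w → P w → Q w) (F : List Dir → ℝ) {n : ℕ} (hn : 3 ≤ n) :
    ∑ w ∈ Y.K n, FF P F w = ∑ w ∈ K P (n + 1), F w := by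
  unfold FF
  rw [← sum_filter]
  symm
  refine sum_bij (fun w _ => (path w.tail).reverse) ?_ ?_ ?_ ?_
  · intro w hw
    obtain ⟨d, u, rfl, hu, hc, hq⟩ := (Pool.Agent.N712.EG.knk P n w hn).1 hw
    have hl := (mem_SS.1 hu).1
    have hne : ¬ u.length = 1 := by omega
    rw [mem_filter, H.K]
    refine ⟨⟨u, hu, rfl, (rq_iff Q u).2 ⟨d, hc, ?_⟩⟩, (rq_iff P u).2 ⟨d, hc, ?_⟩⟩
    · rw [if_neg hne]
      exact hPQ _ (sap_cons (by omega) (mem_SS.1 hu).2 hc) hq
    · rw [if_neg hne]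
      exact hq
  · intro w hw w' hw' h
    obtain ⟨d, u, rfl, hu, hc, hq⟩ := (Pool.Agent.N712.EG.knk P n w hn).1 hw
    obtain ⟨d', u', rfl, hu', hc', hq'⟩ := (Pool.Agent.N712.EG.knk P n w' hn).1 hw'
    have h1 : u = u' := path_inj u u' (List.reverse_injective h)
    subst h1
    rw [← hc'] at hc
    rw [KN.vec_inj (add_left_cancel hc)]
  · intro w hw
    rw [mem_filter] at hw
    obtain ⟨hw1, hw2⟩ := hw
    obtain ⟨u, hu, e, hr⟩ := (H.K n w).1 hw1
    subst e
    obtain ⟨d, hc, hq⟩ := (rq_iff P u).1 hw2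
    rw [if_neg (by have := (mem_SS.1 hu).1; omega)] at hq
    exact ⟨d :: u, (Pool.Agent.N712.EG.knk P n _ hn).2 ⟨d, u, rfl, hu, hc, hq⟩, rfl⟩
  · intro w hw
    obtain ⟨d, u, rfl, hu, hc, hq⟩ := (Pool.Agent.N712.EG.knk P n w hn).1 hw
    have hl := (mem_SS.1 hu).1
    symm
    apply vf_eq
    refine ⟨u, d, rfl, hc, ?_⟩
    rw [if_neg (by omega)]

theorem ff_card {Q P : List Dir → Prop} {Y : TS (List Z3) (List Z3 × List Z3)} (H : SysQ Q Y)
    (hPQ : ∀ w, SAP w → P w → Q w) {n : ℕ} (hn : 3 ≤ n) :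
    ∑ w ∈ Y.K n, FF P (fun _ => 1) w = a P (n + 1) := by
  rw [ff_sum H hPQ _ hn, sum_const, nsmul_eq_mul, mul_one]
  rfl

end

end Pool.Agent.K6.H37.KL
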